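import Pool.Agent.H768.C4.Real

/-!
# MP_eba1ef_gt: circled convex bodies in `ℂ² = ℝ⁴`

The convex bodies in `ℝ⁴` which are invariant under the rotations `cos θ + sin θ J`, where `J` is a
complex structure (`J² = -1`), are covered by sixteen translates of their interior. These are the
(affine images of the) unit balls of the two-dimensional complex normed spaces.

* In a complex basis with `|det|` maximal (Auerbach) the body lies in the bidisc and contains the
  unit vectors.
* With `z = e^{iπ/4}` the sixteen directions `(z^a, 0.9 z^{3a})` and `(-0.9 z^{3a}, z^a)`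
  illuminate every such body. This is checked with a certificate: the points of the boundary of the
  bidisc, up to the symmetries, are cut into 143 boxes, on each of which one direction works.
-/

set_option autoImplicit false

namespace Pool.Agent.Results.MP_eba1ef_gt.CircledBodies

/-- four-dimensional Euclidean space -/
abbrev E4 : Type := EuclideanSpace ℝ (Fin 4)

/-- the linear map given by the matrix `J` -/
noncomputable def app (J : Matrix (Fin 4) (Fin 4) ℝ) (x : E4) : E4 :=
  WithLp.toLp 2 (J.mulVec (WithLp.ofLp x))

/-- Let `J` be a real `4 × 4` matrix with `J² = -1`, let `c` be a point of `ℝ⁴` and let `K` be a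
convex body in `ℝ⁴` which is invariant under the maps
`x ↦ c + cos θ (x - c) + sin θ J (x - c)`. Then `K` is covered by at most sixteen translates of its
interior. -/
theorem result (K : Set E4) (hK : Convex ℝ K) (hc : IsCompact K) (hint : (interior K).Nonempty)
    (J : Matrix (Fin 4) (Fin 4) ℝ) (hJ : J * J = -1) (c : E4)
    (hs : ∀ θ : ℝ, ∀ x ∈ K, c + (Real.cos θ • (x - c) + Real.sin θ • app J (x - c)) ∈ K) :
    ∃ T : Finset E4, T.card ≤ 2 ^ 4 ∧ K ⊆ ⋃ t ∈ T, (fun x => t + x) '' interior K := by
  have hmem : ∀ v, v ∈ (fun x => -c + x) '' K ↔ c + v ∈ K := by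
    intro v
    constructor
    · rintro ⟨x, hx, rfl⟩
      change c + (-c + x) ∈ K
      rwa [add_neg_cancel_left]
    · intro hv
      exact ⟨c + v, hv, neg_add_cancel_left _ _⟩
  refine Pool.Agent.H768.C4.Cov.of_translate (N := 16) (-c) ?_
  refine Pool.Agent.H768.C4.cov_complex (by simp) (hK.translate (-c))
    (hc.image (continuous_const.add continuous_id)) ?_ (Matrix.toEuclideanLin J) ?_ ?_
  · have h1 : interior ((fun x => -c + x) '' K) = (fun x => -c + x) '' interior K :=
      ((Homeomorph.addLeft (-c)).image_interior K).symm
    rw [h1]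
    exact hint.image _
  · intro v
    apply (WithLp.equiv 2 (Fin 4 → ℝ)).injective
    change J.mulVec (J.mulVec (WithLp.ofLp v)) = -WithLp.ofLp v
    rw [Matrix.mulVec_mulVec, hJ, Matrix.neg_mulVec, Matrix.one_mulVec]
  · intro θ v hv
    rw [hmem] at hv ⊢
    have := hs θ (c + v) hv
    rw [add_sub_cancel_left] at this
    exact this

end Pool.Agent.Results.MP_eba1ef_gt.CircledBodies
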