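import Pool.Agent.H768.C4.Fin

/-!
# MP_eba1ef_gt: convex bodies in `ℝ⁴` with infinitely many affine symmetries

Every convex body in `ℝ⁴` which is mapped onto itself by infinitely many affine maps is covered by
sixteen translates of its interior.

* A compactness argument gives a one-parameter group of symmetries which fixes an interior point, and
  in suitable complex coordinates of `ℝ⁴ = ℂ²` it is `(e^{iαt} z₁, e^{iβt} z₂)`, `0 ≤ β ≤ α`, `0 < α`.
* If `β = 0`, the body is a union of discs over a family of planar bodies (library).
* If `α = β`, the body is circled.
* If `α / β` is not an integer, both coordinate projections map the body into itself.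
* The other cases are `α / β = 2`, `α / β = 3` and `α / β ≥ 4` an integer.

In each case explicit sets of sixteen directions illuminate all bodies of the class in a suitable
affine position; this is checked with certificates (about 2000 boxes, `decide +kernel`).
-/

set_option autoImplicit false

namespace Pool.Agent.H768.C4.Old.InfiniteSymmetryFourSpace

/-- four-dimensional Euclidean space -/
abbrev E4 : Type := EuclideanSpace ℝ (Fin 4)

/-- Let `K` be a convex body in `ℝ⁴` such that infinitely many affine maps `g` of `ℝ⁴` into itself
satisfy `g(K) = K`. Then `K` is covered by at most sixteen translates of its interior. -/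
theorem result (K : Set E4) (hK : Convex ℝ K) (hc : IsCompact K) (hint : (interior K).Nonempty)
    (hs : {g : E4 →ᵃ[ℝ] E4 | g '' K = K}.Infinite) :
    ∃ T : Finset E4, T.card ≤ 2 ^ 4 ∧ K ⊆ ⋃ t ∈ T, (fun x => t + x) '' interior K :=
  Pool.Agent.H768.C4.cov_inf (by simp) hK hc hint hs

end Pool.Agent.H768.C4.Old.InfiniteSymmetryFourSpace
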