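import Pool.Agent.H768.C4.Fin
import Pool.Agent.H768.C4.Many

/-!
# MP_eba1ef_gt: convex bodies in `ℝ⁴` with infinitely many, or with many, affine symmetries

1. Every convex body in `ℝ⁴` which is mapped onto itself by infinitely many affine maps is covered by
sixteen translates of its interior.

2. There is a number `M` such that this holds for every convex body in `ℝ⁴` with at least `M` affine
symmetries. So the conjecture in `ℝ⁴` is true for all bodies with a large symmetry group.

* A compactness argument gives a one-parameter group of symmetries which fixes an interior point, and
  in suitable complex coordinates of `ℝ⁴ = ℂ²` it is `(e^{iαt} z₁, e^{iβt} z₂)`, `0 ≤ β ≤ α`, `0 < α`.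
* If `β = 0`, the body is a union of discs over a family of planar bodies (library).
* If `α = β`, the body is circled.
* If `α / β` is not an integer, both coordinate projections map the body into itself.
* The other cases are `α / β = 2`, `α / β = 3` and `α / β ≥ 4` an integer.

In each case explicit sets of sixteen directions illuminate all bodies of the class in a suitable
affine position; this is checked with certificates (about 2000 boxes, `decide +kernel`). Part 2 follows
from part 1 by compactness of the space of affine classes: a limit of bodies with more and more
symmetries has infinitely many, and the covering number is upper semicontinuous.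
-/

set_option autoImplicit false

namespace Pool.Agent.Results.MP_eba1ef_gt.ManySymmetriesFourSpace

/-- four-dimensional Euclidean space -/
abbrev E4 : Type := EuclideanSpace ℝ (Fin 4)

/-- There is a number `M` such that every convex body `K` in `ℝ⁴` with at least `M` (finitely or
infinitely many) affine self-maps `g` of `ℝ⁴` with `g(K) = K` is covered by at most sixteen
translates of its interior. -/
theorem result : ∃ M : ℕ, ∀ K : Set E4, Convex ℝ K → IsCompact K → (interior K).Nonempty →
    (M : ℕ∞) ≤ {g : E4 →ᵃ[ℝ] E4 | g '' K = K}.encard →
    ∃ T : Finset E4, T.card ≤ 2 ^ 4 ∧ K ⊆ ⋃ t ∈ T, (fun x => t + x) '' interior K :=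
  Pool.Agent.H768.C4.many_of_inf (d := 4) (N := 2 ^ 4) fun _ h1 h2 h3 h4 =>
    Pool.Agent.H768.C4.cov_inf (by simp) h1 h2 h3 h4

end Pool.Agent.Results.MP_eba1ef_gt.ManySymmetriesFourSpace
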